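import Pool.Agent.H635.DR.Blocks

/-!
# Guessing sets of words, and the capturing lemma
-/

set_option autoImplicit false

namespace Pool.Agent.H635.DR

open Ordinal Set
open Pool.Agent.H635.Dia (W ρ ρ_lt ρ_lt_ρ ρ_le_ρ ρ_inj exists_ρ mk_W countable_Iio countable_Iic
  exists_bound eq_zero_of_add_eq exists_lub Diamond)

theorem mk_Word : Cardinal.mk Word = Cardinal.mk W := by
  have : Infinite W := inferInstance
  rw [Cardinal.mk_list_eq_mk, Cardinal.mk_prod, Cardinal.lift_id, Cardinal.lift_id,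
    Cardinal.mk_eq_aleph0 M, Cardinal.mul_aleph0_eq (Cardinal.aleph0_le_mk W)]

theorem exists_mem_Words {d : Set W} (hne : d.Nonempty) {a : W} (ha : IsLUB d a) {w : Word} (hw : w ∈ Words a) : ∃ δ ∈ d, w ∈ Words δ := by
  induction w with
  | nil =>
    obtain ⟨δ, hδ⟩ := hne
    exact ⟨δ, hδ, nil_mem δ⟩
  | cons p w ih =>
    rw [cons_mem] at hw
    obtain ⟨δ, hδ, h1⟩ := ih hw.2
    obtain ⟨δ', hδ', h2⟩ := (lt_isLUB_iff ha).1 hw.1
    rcases le_total δ δ' with h | h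
    · exact ⟨δ', hδ', cons_mem.2 ⟨h2, Words_mono h h1⟩⟩
    · exact ⟨δ, hδ, cons_mem.2 ⟨h2.trans_le h, h1⟩⟩

/-- The set of closure points is a club. -/
theorem isClub_closure (c : Word → W) (f : Word → M → Word) :
    IsClub {δ : W | (∃ γ, γ < δ) ∧ ∀ w ∈ Words δ, c w < δ ∧ ∀ n, f w n ∈ Words δ} := by
  constructor
  · intro d hd hne _ a ha
    by_cases had : a ∈ d
    · exact hd had
    · refine ⟨?_, fun w hw => ?_⟩
      · obtain ⟨δ, hδ⟩ := hne
        obtain ⟨γ, hγ⟩ := (hd hδ).1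
        exact ⟨γ, hγ.trans_le (ha.1 hδ)⟩
      · obtain ⟨δ, hδ, h1⟩ := exists_mem_Words hne ha hw
        obtain ⟨h2, h3⟩ := (hd hδ).2 w h1
        exact ⟨h2.trans_le (ha.1 hδ), fun n => Words_mono (ha.1 hδ) (h3 n)⟩
  · intro x
    have hnext : ∀ y : W, ∃ z, y < z ∧ ∀ w ∈ Words y, c w < z ∧ ∀ n, f w n ∈ Words z := by
      intro y
      have hc : ({y} ∪ ⋃ w ∈ Words y, ({c w} ∪ ⋃ n, {a | ∃ m, (a, m) ∈ f w n}) : Set W).Countable := by
        refine (countable_singleton y).union ((countable_Words y).biUnion fun w _ => ?_)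
        refine (countable_singleton _).union (countable_iUnion fun n => ?_)
        have : {a | ∃ m, (a, m) ∈ f w n} = Prod.fst '' {p | p ∈ f w n} := by
          ext a
          constructor
          · rintro ⟨m, hm⟩
            exact ⟨(a, m), hm, rfl⟩
          · rintro ⟨⟨a', m⟩, hm, rfl⟩
            exact ⟨m, hm⟩
        rw [this]
        exact ((List.finite_toSet (f w n)).image _).countable
      obtain ⟨z, hz⟩ := exists_bound hc
      refine ⟨z, hz y (Or.inl rfl), fun w hw => ⟨?_, fun n p hp => ?_⟩⟩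
      · exact hz _ (Or.inr (mem_biUnion hw (Or.inl rfl)))
      · exact hz _ (Or.inr (mem_biUnion hw (Or.inr (mem_iUnion.2 ⟨n, p.2, hp⟩))))
    choose g hg1 hg2 using hnext
    let y : ℕ → W := fun k => g^[k] x
    have hy : ∀ k, y (k + 1) = g (y k) := fun k => Function.iterate_succ_apply' g k x
    obtain ⟨b, hb⟩ := exists_bound (countable_range y)
    obtain ⟨a, ha⟩ := exists_lub (range y) ⟨b, fun z hz => (hb z hz).le⟩
    have hlt : ∀ k, y k < a := by
      intro k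
      have h1 : y (k + 1) ≤ a := ha.1 ⟨k + 1, rfl⟩
      rw [hy] at h1
      exact (hg1 _).trans_le h1
    refine ⟨a, ⟨⟨x, hlt 0⟩, fun w hw => ?_⟩, (hlt 0).le⟩
    obtain ⟨_, ⟨k, rfl⟩, h1⟩ := exists_mem_Words (range_nonempty y) ha hw
    obtain ⟨h2, h3⟩ := hg2 (y k) w h1
    rw [← hy] at h2 h3
    exact ⟨h2.trans (hlt _), fun n => Words_mono (hlt _).le (h3 n)⟩

/-- `♢` for sets of words. -/
theorem guess (h : Diamond) : ∃ G : W → Set Word, ∀ (S : Set Word) (f : Word → M → Word),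
    ∃ δ, (∃ γ, γ < δ) ∧ (∀ w ∈ Words δ, (w ∈ S ↔ w ∈ G δ)) ∧
      ∀ w ∈ Words δ, ∀ n, f w n ∈ Words δ := by
  obtain ⟨c⟩ : Nonempty (Word ≃ W) := Cardinal.eq.1 mk_Word
  obtain ⟨A, -, hA⟩ := h
  refine ⟨fun δ => {w | c w ∈ A δ}, fun S f => ?_⟩
  obtain ⟨δ, h1, h2, h3⟩ := hA (c '' S) (isClub_closure c f)
  refine ⟨δ, h2, fun w hw => ?_, fun w hw => (h3 w hw).2⟩
  have h4 := (h3 w hw).1
  change _ ↔ c w ∈ A δ
  rw [← (h1 : c '' S ∩ Iio δ = A δ)]
  constructor
  · intro h5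
    exact ⟨⟨w, h5, rfl⟩, h4⟩
  · rintro ⟨⟨w', h5, h6⟩, -⟩
    rw [← c.injective h6]
    exact h5

variable {G : W → Set Word}

/-- The word `w'` denotes an initial segment of what `w` denotes. -/
def Ini (G : W → Set Word) (w' w : Word) : Prop :=
  len w' ≤ len w ∧ ∀ ξ < len w', ev (blk G) w' ξ = ev (blk G) w ξ

theorem ev_blk_ne_zero (w : Word) (ξ : Ordinal.{0}) : ev (blk G) w ξ ≠ 0 ↔ ξ < len w :=
  ev_ne_zero (fun p _ => blk_isB G p.1) ξ

theorem ev_blk_eq_zero (w : Word) (ξ : Ordinal.{0}) : ev (blk G) w ξ = 0 ↔ len w ≤ ξ := by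
  rw [← not_iff_not, ← Ne, ev_blk_ne_zero, not_le]

theorem exists_Words (w : Word) : ∃ δ, w ∈ Words δ := by
  induction w with
  | nil => exact ⟨Classical.arbitrary W, nil_mem _⟩
  | cons p w ih =>
    obtain ⟨δ, hδ⟩ := ih
    obtain ⟨z, hz⟩ := exists_bound (S := {p.1, δ}) (Set.Finite.countable (by simp))
    exact ⟨z, cons_mem.2 ⟨hz _ (by simp), Words_mono (hz _ (by simp)).le hδ⟩⟩

theorem exists_ini {w : Word} {α : Ordinal.{0}} (h : α ≤ len w) :
    ∃ w', len w' = α ∧ Ini G w' w := by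
  obtain ⟨δ, hδ⟩ := exists_Words w
  obtain ⟨w', _, h2, h3⟩ := exists_trunc (b := blk G) (fun x _ => blk_isB G x) hδ h
  exact ⟨w', h2, h2 ▸ h, fun ξ hξ => h3 ξ (h2 ▸ hξ)⟩

/-- **Capturing.** If the set `G δ` guesses sets of words, then every set of words which is closed
under initial segments and contains arbitrarily long words contains all the words `t ++ sh n v`,
for some word `t` and some `n`. -/
theorem capture (hG : ∀ (S : Set Word) (f : Word → M → Word),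
    ∃ δ, (∃ γ, γ < δ) ∧ (∀ w ∈ Words δ, (w ∈ S ↔ w ∈ G δ)) ∧
      ∀ w ∈ Words δ, ∀ n, f w n ∈ Words δ)
    (S : Set Word) (hdown : ∀ w ∈ S, ∀ w', Ini G w' w → w' ∈ S)
    (hbig : ∀ x : W, ∃ w ∈ S, ρ x ≤ len w) :
    ∃ (t : Word) (n : M), ∀ v, t ++ sh n v ∈ S := by
  by_contra hcon
  push Not at hcon
  choose f hf using hcon
  obtain ⟨δ, hδ, h1, h2⟩ := hG S f
  obtain ⟨x, hx⟩ : ∃ x, ρ x = ω ^ ρ δ :=
    exists_ρ (Ordinal.isPrincipal_opow_omega 1 omega0_lt_omega_one (ρ_lt δ))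
  obtain ⟨s, hs, hs2⟩ := hbig x
  rw [hx] at hs2
  obtain ⟨w', hw', hw2⟩ := exists_ini (G := G) hs2
  have hw3 : w' ∈ S := hdown s hs w' hw2
  obtain ⟨t, ht, n, rfl⟩ := len_eq_opow hw'
  obtain ⟨U, hU, hUev⟩ := blk_spec G hδ
  obtain ⟨k, hk⟩ := hU.kill (fun t' ht' n' => by
    refine ⟨f t' n', h2 t' ht' n', fun w hw hwG heq => ?_⟩
    have h3 : w ∈ S := (h1 w hw).2 hwG
    apply hf t' n'
    refine hdown w h3 _ ⟨?_, fun ξ _ => (congrFun heq ξ).symm⟩
    have h4 : ∀ ξ, ξ < len (t' ++ sh n' (f t' n')) ↔ ξ < len w := by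
      intro ξ
      rw [← ev_blk_ne_zero (G := G), ← ev_blk_ne_zero (G := G), heq]
    exact le_of_forall_lt fun ξ hξ => (h4 ξ).1 hξ) t ht n
  have hmem : t ++ sh n (U k) ∈ Words δ := append_mem.2 ⟨ht, sh_mem.2 (hU.mem k)⟩
  have hlen : len (t ++ [(δ, n)]) = len t + ω ^ ρ δ := by
    rw [len_append]
    simp [len]
  have hS : t ++ sh n (U k) ∈ S := by
    refine hdown _ hw3 _ ⟨?_, fun ξ hξ => ?_⟩
    · rw [len_append, len_sh, hlen]
      exact add_le_add_right (len_lt_opow (hU.mem k)).le _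
    · rw [ev_append, ev_append]
      by_cases h3 : ξ < len t
      · simp [h3]
      · simp only [h3, if_false]
        rw [len_append, len_sh] at hξ
        have h4 : len t + (ξ - len t) = ξ := Ordinal.add_sub_cancel_of_le (not_lt.1 h3)
        rw [← h4] at hξ
        have h5 : ξ - len t < len (U k) := lt_of_add_lt_add_left hξ
        have h6 : ξ - len t < ω ^ ρ δ := h5.trans (len_lt_opow (hU.mem k))
        rw [ev_sh]
        change _ = cat (ω ^ ρ δ) (sft n (blk G δ)) (fun _ => 0) (ξ - len t)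
        simp only [cat, h6, if_true, sft, hUev k _ h5]
  exact hk _ hmem ((h1 _ hmem).1 hS) rfl

end Pool.Agent.H635.DR
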