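import Pool.Agent.H635.DR.Guess
import Pool.Agent.H635.Dia.Line

/-!
# The line, which is a minimal Aronszajn line isomorphic to its reverse
-/

set_option autoImplicit false

namespace Pool.Agent.H635.DR

open Ordinal Set
open Pool.Agent.H635.Dia (W ρ ρ_lt ρ_lt_ρ ρ_le_ρ ρ_inj exists_ρ mk_W countable_Iio countable_Iic
  exists_bound eq_zero_of_add_eq exists_lub Diamond eventually_const)

/-- The function on `W` denoted by a word. -/
noncomputable def E (G : W → Set Word) (w : Word) : W → ℤ := fun x => ev (blk G) w (ρ x)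

/-- The functions denoted by words. -/
def Nd (G : W → Set Word) : Set (W → ℤ) := range (E G)

open Classical in
/-- Cut off a function. -/
noncomputable def tr (x : W) (f : W → ℤ) : W → ℤ := fun y => if y < x then f y else 0

variable {G : W → Set Word}

theorem E_ne_zero (w : Word) (x : W) : E G w x ≠ 0 ↔ ρ x < len w := ev_blk_ne_zero w _

theorem tr_of_lt {x y : W} (h : y < x) (f : W → ℤ) : tr x f y = f y := by
  simp [tr, h]

theorem tr_of_le {x y : W} (h : x ≤ y) (f : W → ℤ) : tr x f y = 0 := by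
  simp [tr, not_lt.2 h]

theorem E_ini {w w' : Word} (h : Ini G w' w) (x : W) (hx : ρ x = len w') : E G w' = tr x (E G w) := by
  funext y
  by_cases hy : y < x
  · rw [tr_of_lt hy]
    exact h.2 _ (by rw [← hx]; exact ρ_lt_ρ.2 hy)
  · rw [not_lt] at hy
    rw [tr_of_le hy]
    by_contra h1
    have h2 := (E_ne_zero (G := G) w' y).1 h1
    rw [← hx, ρ_lt_ρ] at h2
    exact absurd h2 (not_lt.2 hy)

theorem tr_mem {f : W → ℤ} (hf : f ∈ Nd G) (x : W) : tr x f ∈ Nd G := by
  obtain ⟨w, rfl⟩ := hf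
  rcases le_total (ρ x) (len w) with h | h
  · obtain ⟨w', h1, h2⟩ := exists_ini (G := G) h
    exact ⟨w', E_ini h2 x h1.symm⟩
  · refine ⟨w, ?_⟩
    funext y
    by_cases hy : y < x
    · rw [tr_of_lt hy]
    · rw [tr_of_le (not_lt.1 hy)]
      by_contra h1
      have h2 := (E_ne_zero (G := G) w y).1 h1
      exact hy (ρ_lt_ρ.1 (h2.trans_le h))

/-- Converse of `E_ini`. -/
theorem ini_of_E {w w' : Word} {x : W} (h : E G w' = tr x (E G w)) (hx : len w' ≤ ρ x) :
    Ini G w' w := by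
  have h1 : ∀ ξ < len w', ev (blk G) w' ξ = ev (blk G) w ξ := by
    intro ξ hξ
    obtain ⟨y, rfl⟩ := exists_ρ (hξ.trans (len_lt w'))
    have h2 := congrFun h y
    rw [tr_of_lt (ρ_lt_ρ.1 (hξ.trans_le hx))] at h2
    exact h2
  refine ⟨?_, h1⟩
  refine le_of_forall_lt fun ξ hξ => ?_
  rw [← ev_blk_ne_zero (G := G), ← h1 ξ hξ, ev_blk_ne_zero]
  exact hξ

theorem exists_len_eq (w : Word) : ∃ x, ρ x = len w := exists_ρ (len_lt w)

theorem tr_E_self {w : Word} {x : W} (h : len w ≤ ρ x) : tr x (E G w) = E G w := by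
  funext y
  by_cases hy : y < x
  · rw [tr_of_lt hy]
  · rw [tr_of_le (not_lt.1 hy)]
    by_contra h1
    have h2 := (E_ne_zero (G := G) w y).1 (Ne.symm h1)
    exact hy (ρ_lt_ρ.1 (h2.trans_le h))

theorem exists_tr_self {f : W → ℤ} (hf : f ∈ Nd G) : ∃ x, ∀ y, x ≤ y → tr y f = f := by
  obtain ⟨w, rfl⟩ := hf
  obtain ⟨x, hx⟩ := exists_len_eq w
  exact ⟨x, fun y hy => tr_E_self (hx.ge.trans (ρ_le_ρ.2 hy))⟩

/-- Only countably many nodes are supported below `x`. -/
theorem countable_Nd (x : W) : {f | f ∈ Nd G ∧ ∀ y, x ≤ y → f y = 0}.Countable := by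
  obtain ⟨δ, hδ⟩ := exists_bound (countable_singleton x)
  have hxδ : x < δ := hδ x rfl
  refine ((countable_Words δ).image (E G)).mono ?_
  rintro _ ⟨⟨w, rfl⟩, h⟩
  have h1 : len w ≤ ρ x := by
    by_contra h2
    rw [not_le] at h2
    exact (E_ne_zero (G := G) w x).2 h2 (h x le_rfl)
  by_cases hw : w ∈ Words δ
  · exact ⟨w, hw, rfl⟩
  · exfalso
    obtain ⟨w₁, _, q, w₂, rfl, hq⟩ := exists_first hw
    rw [len_append] at h1
    change len w₁ + (ω ^ ρ q.1 + len w₂) ≤ _ at h1
    have h2 : ω ^ ρ q.1 ≤ ρ x := (le_self_add.trans le_add_self).trans h1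
    have h3 : ρ q.1 ≤ ω ^ ρ q.1 := Ordinal.right_le_opow _ one_lt_omega0
    have h4 : ρ x < ρ q.1 := ρ_lt_ρ.2 (hxδ.trans_le hq)
    exact absurd (h3.trans h2) (not_le.2 h4)

/-- `f` precedes `g` in the lexicographic order. -/
def Lt (f g : W → ℤ) : Prop := ∃ x, (∀ y < x, f y = g y) ∧ f x < g x

theorem toLex_lt {f g : W → ℤ} : toLex f < toLex g ↔ Lt f g := Iff.rfl

theorem tr_le_tr {f g : W → ℤ} (h : toLex f ≤ toLex g) (x : W) :
    toLex (tr x f) ≤ toLex (tr x g) := by
  rcases h.eq_or_lt with h | h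
  · rw [toLex.injective h]
  · obtain ⟨z, h1, h2⟩ := toLex_lt.1 h
    by_cases hz : z < x
    · apply le_of_lt
      refine toLex_lt.2 ⟨z, fun y hy => ?_, ?_⟩
      · rw [tr_of_lt (hy.trans hz), tr_of_lt (hy.trans hz), h1 y hy]
      · rwa [tr_of_lt hz, tr_of_lt hz]
    · apply le_of_eq
      congr 1
      funext y
      by_cases hy : y < x
      · rw [tr_of_lt hy, tr_of_lt hy, h1 y (hy.trans_le (not_lt.1 hz))]
      · rw [tr_of_le (not_lt.1 hy), tr_of_le (not_lt.1 hy)]

/-- The set `G δ` guesses sets of words. -/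
def Guesses (G : W → Set Word) : Prop := ∀ (S : Set Word) (f : Word → M → Word),
    ∃ δ, (∃ γ, γ < δ) ∧ (∀ w ∈ Words δ, (w ∈ S ↔ w ∈ G δ)) ∧
      ∀ w ∈ Words δ, ∀ n, f w n ∈ Words δ

theorem act_injective {m : M} {z z' : ℤ} (h : act m z = act m z') : z = z' := by
  have h1 := sign_act m z
  rw [h, sign_act] at h1
  have h2 : z'.sign = z.sign := by
    rcases Int.units_eq_one_or m.2 with h3 | h3
    · rw [h3] at h1
      simpa using h1
    · rw [h3] at h1
      simpa using h1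
  unfold act at h
  rw [h2] at h
  rcases Int.units_eq_one_or m.2 with h3 | h3
  · rw [h3] at h
    simpa using h
  · rw [h3] at h
    simpa using h

/-- There is no cofinal branch. -/
theorem no_branch (hG : Guesses G) (B : W → ℤ) (h0 : ∀ x, B x ≠ 0) (h : ∀ x, tr x B ∈ Nd G) :
    False := by
  obtain ⟨t, n, hv⟩ := capture hG {w | ∃ x, E G w = tr x B} (by
      rintro w ⟨x, hx⟩ w' hw'
      obtain ⟨y, hy⟩ := exists_len_eq w'
      refine ⟨y, ?_⟩
      rw [E_ini hw' y hy, hx]
      funext z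
      by_cases hz : z < y
      · rw [tr_of_lt hz, tr_of_lt hz]
        have h1 : ρ z < len w' := by rw [← hy]; exact ρ_lt_ρ.2 hz
        have h2 : E G w z ≠ 0 := (E_ne_zero (G := G) w z).2 (h1.trans_le hw'.1)
        rw [hx] at h2
        by_cases hzx : z < x
        · rw [tr_of_lt hzx]
        · exact absurd (tr_of_le (not_lt.1 hzx) B) h2
      · rw [tr_of_le (not_lt.1 hz), tr_of_le (not_lt.1 hz)])
    (by
      intro x
      obtain ⟨w, hw⟩ := h x
      refine ⟨w, ⟨x, hw⟩, ?_⟩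
      by_contra hlt
      rw [not_le] at hlt
      obtain ⟨y, hy⟩ := exists_len_eq w
      have hyx : y < x := by rw [← ρ_lt_ρ, hy]; exact hlt
      have h1 : E G w y = 0 := by
        by_contra h2
        have h3 := (E_ne_zero (G := G) w y).1 h2
        rw [hy] at h3
        exact lt_irrefl _ h3
      rw [hw, tr_of_lt hyx] at h1
      exact h0 y h1)
  obtain ⟨y, hy⟩ := exists_len_eq t
  have key : ∀ m, B y = act n (ev (blk G) [(y, m)] 0) := by
    intro m
    obtain ⟨x, hx⟩ := hv [(y, m)]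
    have h1 : (0 : Ordinal.{0}) < len [(y, m)] := by
      change 0 < ω ^ ρ y + 0
      rw [add_zero]
      exact Ordinal.opow_pos _ omega0_pos
    have h2 : E G (t ++ sh n [(y, m)]) y = act n (ev (blk G) [(y, m)] 0) := by
      unfold E
      rw [ev_append, if_neg (by rw [hy]; exact lt_irrefl _), hy, Ordinal.sub_self, ev_sh]
      rfl
    have h3 : E G (t ++ sh n [(y, m)]) y ≠ 0 := by
      rw [E_ne_zero, len_append, len_sh, hy]
      exact lt_add_of_pos_right _ h1
    have h4 := congrFun hx y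
    have h5 : y < x := by
      by_contra h6
      rw [tr_of_le (not_lt.1 h6)] at h4
      exact h3 h4
    rw [tr_of_lt h5, h2] at h4
    exact h4.symm
  have h1 := key (0, 1)
  have h2 := key (1, 1)
  have h0 : blk G y 0 ≠ 0 := ((blk_isB G y).1 0).2 (Ordinal.opow_pos _ omega0_pos)
  have h3 : ∀ m, ev (blk G) [(y, m)] 0 = act m (blk G y 0) := by
    intro m
    have h4 : (0 : Ordinal.{0}) < ω ^ ρ y := Ordinal.opow_pos _ omega0_pos
    change cat (ω ^ ρ y) (sft m (blk G y)) (fun _ => 0) 0 = _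
    simp only [cat, h4, if_true, sft]
  rw [h1, h3, h3] at h2
  have h4 := act_injective h2
  rw [act_one] at h4
  unfold act at h4
  simp only [Units.val_one, one_mul, Nat.cast_one] at h4
  have h5 : (blk G y 0).sign = 0 := by omega
  exact h0 (Int.sign_eq_zero_iff_zero.1 h5)

/-- There is no uncountable monotone or antitone sequence. -/
theorem no_omega1 (hG : Guesses G) (φ : W → Lex (W → ℤ)) (hinj : Function.Injective φ)
    (hφ : ∀ z, ofLex (φ z) ∈ Nd G) (hm : Monotone φ ∨ Antitone φ) : False := by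
  have hcut : ∀ x, ∃ z₀ c, ∀ z, z₀ ≤ z → toLex (tr x (ofLex (φ z))) = c := by
    intro x
    apply eventually_const (fun z => toLex (tr x (ofLex (φ z))))
    · rcases hm with hm | hm
      · left
        intro z z' hz
        exact tr_le_tr (hm hz) x
      · right
        intro z z' hz
        exact tr_le_tr (hm hz) x
    · refine ((countable_Nd (G := G) x).image toLex).mono ?_
      rintro _ ⟨z, rfl⟩
      exact ⟨_, ⟨tr_mem (hφ z) x, fun y hy => tr_of_le hy _⟩, rfl⟩
  choose z₀ c hc using hcut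
  have hs : ∀ y : W, ∃ x, y < x := fun y => by
    obtain ⟨b, hb⟩ := exists_bound (countable_singleton y)
    exact ⟨b, hb y rfl⟩
  choose s hs using hs
  let B : W → ℤ := fun y => ofLex (c (s y)) y
  have hB : ∀ x, tr x B = ofLex (c x) := by
    intro x
    funext y
    have h1 := hc x (max (z₀ x) (z₀ (s y))) (le_max_left _ _)
    have h2 := hc (s y) (max (z₀ x) (z₀ (s y))) (le_max_right _ _)
    by_cases hy : y < x
    · rw [tr_of_lt hy]
      change ofLex (c (s y)) y = ofLex (c x) y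
      rw [← h1, ← h2]
      change tr (s y) _ y = tr x _ y
      rw [tr_of_lt hy, tr_of_lt (hs y)]
    · rw [tr_of_le (not_lt.1 hy), ← h1]
      exact (tr_of_le (not_lt.1 hy) _).symm
  apply no_branch hG B
  · intro y hy
    obtain ⟨z, hz⟩ : ∃ z, max (z₀ y) (z₀ (s y)) < z := ⟨_, hs _⟩
    have hcon : ∀ z', max (z₀ y) (z₀ (s y)) ≤ z' → ofLex (φ z') = ofLex (c y) := by
      intro z' hz'
      have h1 := hc y z' ((le_max_left _ _).trans hz')
      have h2 := hc (s y) z' ((le_max_right _ _).trans hz')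
      rw [← h1]
      obtain ⟨w, hw⟩ := hφ z'
      have h3 : ofLex (φ z') y = 0 := by
        change ofLex (c (s y)) y = 0 at hy
        rw [← h2] at hy
        change tr (s y) _ y = 0 at hy
        rwa [tr_of_lt (hs y)] at hy
      change _ = tr y (ofLex (φ z'))
      rw [← hw] at h3 ⊢
      rw [tr_E_self]
      by_contra h4
      exact (E_ne_zero (G := G) w y).2 (not_le.1 h4) h3
    have h3 := hcon _ le_rfl
    have h4 := hcon z hz.le
    have h5 := hinj (h4.trans h3.symm : φ z = φ _)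
    exact hz.ne h5.symm
  · intro x
    rw [hB, ← hc x _ le_rfl]
    exact tr_mem (hφ _) x

/-- No uncountable set of reals embeds. -/
theorem no_real (S : Set ℝ) (hS : ¬ S.Countable) (ψ : S → Lex (W → ℤ)) (hψ : StrictMono ψ)
    (hN : ∀ z, ofLex (ψ z) ∈ Nd G) : False := by
  obtain ⟨D, hD, hD2⟩ := TopologicalSpace.exists_countable_dense S
  have hsup : ∀ d : S, ∃ x, ∀ y, x ≤ y → tr y (ofLex (ψ d)) = ofLex (ψ d) := fun d =>
    exists_tr_self (hN d)
  choose X hX using hsup
  obtain ⟨x, hx⟩ := exists_bound (hD.image X)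
  have hfib : ∃ c, ¬ {s : S | toLex (tr x (ofLex (ψ s))) = c}.Countable := by
    by_contra h
    push Not at h
    have h2 : (univ : Set S) ⊆ ⋃ c ∈ range (fun s : S => toLex (tr x (ofLex (ψ s)))),
        {s : S | toLex (tr x (ofLex (ψ s))) = c} := fun z _ =>
      mem_biUnion (mem_range_self z) rfl
    have h3 : (range (fun s : S => toLex (tr x (ofLex (ψ s))))).Countable := by
      refine ((countable_Nd (G := G) x).image toLex).mono ?_
      rintro _ ⟨z, rfl⟩
      exact ⟨_, ⟨tr_mem (hN z) x, fun y hy => tr_of_le hy _⟩, rfl⟩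
    have h4 : (univ : Set S).Countable := (h3.biUnion fun c _ => h c).mono h2
    exact hS (countable_coe_iff.1 (countable_univ_iff.1 h4))
  obtain ⟨c, hc⟩ := hfib
  have hinf : {s : S | toLex (tr x (ofLex (ψ s))) = c}.Infinite := fun h => hc h.countable
  have hmid : ∀ s₁ s₂ s₃ : S, toLex (tr x (ofLex (ψ s₁))) = c → toLex (tr x (ofLex (ψ s₃))) = c →
      s₁ < s₂ → s₂ < s₃ → ∃ d, s₁ < d ∧ d < s₃ ∧ ψ d = c := by
    intro s₁ s₂ s₃ hs₁ hs₃ h12 h23
    obtain ⟨d, hd1, hd2⟩ := hD2.exists_mem_open (isOpen_Ioo (a := s₁) (b := s₃)) ⟨s₂, h12, h23⟩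
    have h1 := tr_le_tr (f := ofLex (ψ s₁)) (g := ofLex (ψ d)) (hψ hd2.1).le x
    have h2 := tr_le_tr (f := ofLex (ψ d)) (g := ofLex (ψ s₃)) (hψ hd2.2).le x
    rw [hs₁] at h1
    rw [hs₃] at h2
    have h3 : toLex (tr x (ofLex (ψ d))) = c := le_antisymm h2 h1
    rw [hX d x (hx _ ⟨d, hd1, rfl⟩).le] at h3
    exact ⟨d, hd2.1, hd2.2, h3⟩
  obtain ⟨F, hF, hF3⟩ := hinf.exists_subset_card_eq 5
  let e := F.orderEmbOfFin hF3
  have he : ∀ i, toLex (tr x (ofLex (ψ (e i)))) = c := fun i => hF (F.orderEmbOfFin_mem hF3 i)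
  obtain ⟨d₁, _, h2, h3⟩ := hmid (e 0) (e 1) (e 2) (he 0) (he 2) (e.strictMono (by decide))
    (e.strictMono (by decide))
  obtain ⟨d₂, h4, _, h6⟩ := hmid (e 2) (e 3) (e 4) (he 2) (he 4) (e.strictMono (by decide))
    (e.strictMono (by decide))
  have h7 := hψ (h2.trans h4)
  rw [h3, h6] at h7
  exact lt_irrefl _ h7

/-- The line. -/
abbrev Ln (G : W → Set Word) : Type := {f : Lex (W → ℤ) // ofLex f ∈ Nd G}

theorem uncountable_Ln : Uncountable (Ln G) := by
  have h : Function.Injective (fun x : W => (⟨toLex (E G [(x, (0, 1))]), ⟨_, rfl⟩⟩ : Ln G)) := by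
    intro x y hxy
    have h1 : E G [(x, (0, 1))] = E G [(y, (0, 1))] := congrArg (fun f : Ln G => ofLex f.1) hxy
    have h2 : ∀ z, ρ z < ω ^ ρ x ↔ ρ z < ω ^ ρ y := by
      intro z
      have h3 := E_ne_zero (G := G) [(x, (0, 1))] z
      have h4 := E_ne_zero (G := G) [(y, (0, 1))] z
      rw [h1] at h3
      simp only [len, add_zero] at h3 h4
      rw [← h3, ← h4]
    have h5 : ∀ a b : W, (∀ z, ρ z < ω ^ ρ a ↔ ρ z < ω ^ ρ b) → ω ^ ρ a ≤ ω ^ ρ b := by
      intro a b h
      refine le_of_forall_lt fun ξ hξ => ?_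
      obtain ⟨z, rfl⟩ := exists_ρ (hξ.trans
        (Ordinal.isPrincipal_opow_omega 1 omega0_lt_omega_one (ρ_lt a)))
      exact (h z).1 hξ
    have h6 : ω ^ ρ x = ω ^ ρ y := le_antisymm (h5 x y h2) (h5 y x fun z => (h2 z).symm)
    exact ρ_inj (Ordinal.opow_right_inj one_lt_omega0 |>.1 h6)
  exact h.uncountable

theorem sh_sh (n m : M) (w : Word) : sh n (sh m w) = sh (mmul n m) w := by
  unfold sh
  rw [List.map_map]
  apply List.map_congr_left
  intro p _
  change (p.1, mmul n (mmul m p.2)) = (p.1, mmul (mmul n m) p.2)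
  unfold mmul
  simp only [add_assoc, mul_assoc]

theorem act_act_pos (n : ℕ) {a : ℤ} (h : 0 < a) : act (n, 1) (act (1, 1) a) = a + 1 + n := by
  rw [← act_mmul]
  unfold act mmul
  simp only [Int.sign_eq_one_of_pos h, mul_one, Units.val_one, one_mul]
  push_cast
  ring

theorem act_act_neg (n : ℕ) {a : ℤ} (h : a < 0) : act (n, 1) (act (1, 1) a) = a - 1 - n := by
  rw [← act_mmul]
  unfold act mmul
  simp only [Int.sign_eq_neg_one_of_neg h, mul_one, Units.val_one, one_mul]
  push_cast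
  ring

/-- If two functions denoted by words differ for the first time at `z`, then `z` is at most the
length of the first word. -/
theorem le_len {w w' : Word} {z : W} (h1 : ∀ y < z, E G w y = E G w' y)
    (h2 : E G w z ≠ E G w' z) : ρ z ≤ len w := by
  by_contra hcon
  rw [not_le] at hcon
  obtain ⟨y, hy⟩ := exists_len_eq w
  have hyz : y < z := by rw [← ρ_lt_ρ, hy]; exact hcon
  have h3 := h1 y hyz
  have h4 : E G w y = 0 := by
    by_contra h5
    have h6 := (E_ne_zero (G := G) _ _).1 h5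
    rw [hy] at h6
    exact lt_irrefl _ h6
  have h5 : ¬ ρ y < len w' := fun h6 => (E_ne_zero (G := G) _ _).2 h6 (h3.symm.trans h4)
  have h6 : E G w z = 0 := by
    by_contra h7
    exact absurd ((E_ne_zero (G := G) _ _).1 h7) (not_lt.2 hcon.le)
  have h8 : E G w' z = 0 := by
    by_contra h7
    exact h5 ((ρ_lt_ρ.2 hyz).trans ((E_ne_zero (G := G) _ _).1 h7))
  exact h2 (h6.trans h8.symm)

/-- The word denoting the shift of what `s` denotes, followed by 1. -/
def Uw (a : W) (s : Word) : Word := sh (1, 1) s ++ [(a, (0, 1))]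

theorem blk_zero {a : W} (ha : ρ a = 0) : blk G a 0 = 1 := by
  have hno : ¬ ∃ γ, γ < a := by
    rintro ⟨γ, hγ⟩
    have := ρ_lt_ρ.2 hγ
    rw [ha] at this
    exact not_lt_bot this
  rw [blk_eq]
  unfold mk
  rw [dif_neg hno, if_pos rfl]

theorem len_single {a : W} (ha : ρ a = 0) (m : M) : len [(a, m)] = 1 := by
  change ω ^ ρ a + 0 = 1
  rw [ha, Ordinal.opow_zero, add_zero]

theorem ev_single {a : W} (ha : ρ a = 0) (m : M) : ev (blk G) [(a, m)] 0 = act m 1 := by
  have h2 : (0 : Ordinal.{0}) < ω ^ ρ a := Ordinal.opow_pos _ omega0_pos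
  change cat (ω ^ ρ a) (sft m (blk G a)) (fun _ => 0) 0 = _
  simp only [cat, h2, if_true, sft, blk_zero ha]

/-- The main computation: extensions of shifts of two functions followed by 1 are ordered as the
two functions. -/
theorem main_lt {a : W} (ha : ρ a = 0) (t : Word) (n : ℕ) {s s' : Word} {k k' : W → ℤ} {x x' : W}
    (hx : len (t ++ sh (n, 1) (Uw a s)) ≤ ρ x) (hk : E G (t ++ sh (n, 1) (Uw a s)) = tr x k)
    (hx' : len (t ++ sh (n, 1) (Uw a s')) ≤ ρ x')
    (hk' : E G (t ++ sh (n, 1) (Uw a s')) = tr x' k') (hlt' : Lt (E G s) (E G s')) :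
    Lt k k' := by
  have hval : ∀ {s : Word} {k : W → ℤ} {x : W}, len (t ++ sh (n, 1) (Uw a s)) ≤ ρ x →
      E G (t ++ sh (n, 1) (Uw a s)) = tr x k → ∀ z : W, ρ z < len t + (len s + 1) →
      k z = ev (blk G) (t ++ sh (n, 1) (Uw a s)) (ρ z) := by
    intro s k x hx hk z hz
    have h1 : ρ z < len (t ++ sh (n, 1) (Uw a s)) := by
      unfold Uw
      rw [len_append, len_sh, len_append, len_sh, len_single ha]
      exact hz
    have h2 : z < x := ρ_lt_ρ.1 (h1.trans_le hx)
    have h3 := congrFun hk z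
    rw [tr_of_lt h2] at h3
    exact h3.symm
  have hval1 : ∀ {s : Word} {k : W → ℤ} {x : W}, len (t ++ sh (n, 1) (Uw a s)) ≤ ρ x →
      E G (t ++ sh (n, 1) (Uw a s)) = tr x k → ∀ z : W, ρ z < len t →
      k z = ev (blk G) t (ρ z) := by
    intro s k x hx hk z hz
    rw [hval hx hk z (hz.trans_le le_self_add), ev_append, if_pos hz]
  let τ : ℤ → ℤ := fun b => if b = 0 then 1 + n else act (n, 1) (act (1, 1) b)
  have hτ : ∀ b c, b < c → τ b < τ c := by
    intro b c hbc
    have hn : (0 : ℤ) ≤ n := Int.natCast_nonneg n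
    change (if b = 0 then (1 : ℤ) + n else act (n, 1) (act (1, 1) b)) <
      (if c = 0 then (1 : ℤ) + n else act (n, 1) (act (1, 1) c))
    rcases lt_trichotomy b 0 with hb | hb | hb
    · rw [if_neg hb.ne, act_act_neg n hb]
      rcases lt_trichotomy c 0 with hc | hc | hc
      · rw [if_neg hc.ne, act_act_neg n hc]
        omega
      · rw [if_pos hc]
        omega
      · rw [if_neg hc.ne', act_act_pos n hc]
        omega
    · have hc : 0 < c := by omega
      rw [if_pos hb, if_neg hc.ne', act_act_pos n hc]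
      omega
    · have hc : 0 < c := by omega
      rw [if_neg hb.ne', act_act_pos n hb, if_neg hc.ne', act_act_pos n hc]
      omega
  have hval2 : ∀ {s : Word} {k : W → ℤ} {x : W}, len (t ++ sh (n, 1) (Uw a s)) ≤ ρ x →
      E G (t ++ sh (n, 1) (Uw a s)) = tr x k → ∀ z : W, ∀ o ≤ len s, ρ z = len t + o →
      k z = τ (ev (blk G) s o) := by
    intro s k x hx hk z o ho hz
    rw [hval hx hk z (by
      rw [hz]
      exact add_lt_add_right (ho.trans_lt (lt_add_of_pos_right _ zero_lt_one)) _), ev_append, hz,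
      if_neg (not_lt.2 le_self_add), Ordinal.add_sub_cancel, ev_sh]
    rcases ho.eq_or_lt with h1 | h1
    · have h0 : ev (blk G) s o = 0 := (ev_blk_eq_zero (G := G) _ _).2 h1.ge
      change act (n, 1) (ev (blk G) (sh (1, 1) s ++ [(a, (0, 1))]) o) =
        if ev (blk G) s o = 0 then (1 : ℤ) + n else _
      rw [if_pos h0, ev_append, len_sh, if_neg (not_lt.2 h1.ge), h1, Ordinal.sub_self,
        ev_single ha, act_one]
      unfold act
      simp
    · have h0 : ev (blk G) s o ≠ 0 := (ev_blk_ne_zero (G := G) _ _).2 h1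
      change act (n, 1) (ev (blk G) (sh (1, 1) s ++ [(a, (0, 1))]) o) =
        if ev (blk G) s o = 0 then (1 : ℤ) + n else _
      rw [if_neg h0, ev_append, len_sh, if_pos h1, ev_sh]
      rfl
  obtain ⟨z, h1, h2⟩ := hlt'
  have hzf : ρ z ≤ len s := le_len h1 h2.ne
  have hzg : ρ z ≤ len s' := le_len (fun y hy => (h1 y hy).symm) h2.ne'
  have hlt : len t + ρ z < ω₁ := by
    have h3 : len t + ρ z ≤ len (t ++ s) := by
      rw [len_append]
      exact add_le_add_right hzf _
    exact h3.trans_lt (len_lt _)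
  obtain ⟨z', hz'⟩ := exists_ρ hlt
  refine ⟨z', fun y hy => ?_, ?_⟩
  · have hy1 : ρ y < len t + ρ z := by rw [← hz']; exact ρ_lt_ρ.2 hy
    by_cases hyt : ρ y < len t
    · rw [hval1 hx hk y hyt, hval1 hx' hk' y hyt]
    · have h3 : len t + (ρ y - len t) = ρ y := Ordinal.add_sub_cancel_of_le (not_lt.1 hyt)
      have h4 : ρ y - len t < ρ z := by
        rw [← h3] at hy1
        exact lt_of_add_lt_add_left hy1
      obtain ⟨y', hy'⟩ := exists_ρ (h4.trans (ρ_lt z))
      have h5 : y' < z := by rw [← ρ_lt_ρ, hy']; exact h4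
      rw [hval2 hx hk y _ (h4.le.trans hzf) h3.symm, hval2 hx' hk' y _ (h4.le.trans hzg) h3.symm,
        ← hy']
      have h6 := h1 y' h5
      unfold E at h6
      rw [h6]
  · rw [hval2 hx hk z' _ hzf hz', hval2 hx' hk' z' _ hzg hz']
    exact hτ _ _ h2

/-- The line embeds in its uncountable subsets. -/
theorem minimal (hG : Guesses G) (K : Set (Ln G)) (hK : ¬ K.Countable) : Nonempty (Ln G ↪o K) := by
  obtain ⟨t, n₀, hv₀⟩ := capture hG {w | ∃ k ∈ K, ∃ x, len w ≤ ρ x ∧ E G w = tr x (ofLex k.1)} (by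
      rintro w ⟨k, hk, x, hx, hx2⟩ w' hw'
      obtain ⟨y, hy⟩ := exists_len_eq w'
      refine ⟨k, hk, y, hy.ge, ?_⟩
      rw [E_ini hw' y hy, hx2]
      have hyx : y ≤ x := by rw [← ρ_le_ρ, hy]; exact hw'.1.trans hx
      funext z
      by_cases hz : z < y
      · rw [tr_of_lt hz, tr_of_lt hz, tr_of_lt (hz.trans_le hyx)]
      · rw [tr_of_le (not_lt.1 hz), tr_of_le (not_lt.1 hz)])
    (by
      intro x
      have h1 : ∃ k ∈ K, ¬ ∀ y, x ≤ y → ofLex k.1 y = 0 := by
        by_contra hcon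
        push Not at hcon
        apply hK
        have h2 : MapsTo (fun k : Ln G => ofLex k.1) K {f | f ∈ Nd G ∧ ∀ y, x ≤ y → f y = 0} :=
          fun k hk => ⟨k.2, hcon k hk⟩
        exact h2.countable_of_injOn (fun a _ b _ hab => Subtype.ext hab) (countable_Nd x)
      obtain ⟨k, hk, h2⟩ := h1
      push Not at h2
      obtain ⟨y, hy, hy2⟩ := h2
      obtain ⟨w, hw⟩ := k.2
      rw [← hw] at hy2
      have h3 := (E_ne_zero (G := G) w y).1 hy2
      obtain ⟨z, hz⟩ := exists_len_eq w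
      refine ⟨w, ⟨k, hk, z, hz.ge, ?_⟩, (ρ_le_ρ.2 hy).trans h3.le⟩
      rw [← hw, tr_E_self hz.ge])
  obtain ⟨n, ε⟩ := n₀
  have hv : ∀ v, t ++ sh (n, 1) v ∈ {w | ∃ k ∈ K, ∃ x, len w ≤ ρ x ∧ E G w = tr x (ofLex k.1)} := by
    intro v
    have h1 := hv₀ (sh (0, ε) v)
    have h2 : mmul (n, ε) (0, ε) = (n, 1) := by
      unfold mmul
      simp only [add_zero, Int.units_mul_self]
    rwa [sh_sh, h2] at h1
  obtain ⟨a, ha⟩ := exists_ρ (Ordinal.omega_pos 1)
  have hF : ∀ f : Ln G, ∃ s : Word, E G s = ofLex f.1 ∧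
      ∃ k : K, ∃ x, len (t ++ sh (n, 1) (Uw a s)) ≤ ρ x ∧
        E G (t ++ sh (n, 1) (Uw a s)) = tr x (ofLex k.1.1) := by
    intro f
    obtain ⟨s, hs⟩ := f.2
    obtain ⟨k, hk, h1⟩ := hv (Uw a s)
    exact ⟨s, hs, ⟨k, hk⟩, h1⟩
  choose s hs F x hx hF using hF
  refine ⟨OrderEmbedding.ofStrictMono F ?_⟩
  intro f g hfg
  change Lt (ofLex (F f).1.1) (ofLex (F g).1.1)
  refine main_lt ha t n (hx f) (hF f) (hx g) (hF g) ?_
  rw [hs, hs]
  exact hfg

theorem sh_one (w : Word) : sh (0, 1) w = w := by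
  unfold sh
  conv_rhs => rw [← List.map_id w]
  apply List.map_congr_left
  intro p _
  change (p.1, mmul (0, 1) p.2) = p
  unfold mmul
  simp

theorem ini_append (w v : Word) : Ini G w (w ++ v) := by
  refine ⟨?_, fun ξ hξ => ?_⟩
  · rw [len_append]
    exact le_self_add
  · rw [ev_append, if_pos hξ]

/-- There are uncountably many disjoint intervals. -/
theorem intervals : ∃ a b c : Ln G → Ln G, (∀ f, a f < b f ∧ b f < c f) ∧
    ∀ f g, f < g → c f < a g := by
  obtain ⟨o, ho⟩ := exists_ρ (Ordinal.omega_pos 1)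
  have hs : ∀ f : Ln G, ∃ s : Word, E G s = ofLex f.1 := fun f => f.2
  choose s hs using hs
  let X : M → Ln G → Ln G := fun m f => ⟨toLex (E G (Uw o (s f) ++ [(o, m)])), ⟨_, rfl⟩⟩
  have h1 : ∀ m m' : M, act m 1 < act m' 1 → ∀ f, X m f < X m' f := by
    intro m m' h f
    obtain ⟨x, hx⟩ := exists_len_eq (Uw o (s f))
    change Lt (E G (Uw o (s f) ++ [(o, m)])) (E G (Uw o (s f) ++ [(o, m')]))
    refine ⟨x, fun y hy => ?_, ?_⟩
    · have h2 : ρ y < len (Uw o (s f)) := by rw [← hx]; exact ρ_lt_ρ.2 hy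
      unfold E
      rw [ev_append, if_pos h2, ev_append, if_pos h2]
    · unfold E
      rw [ev_append, hx, if_neg (lt_irrefl _), ev_append, if_neg (lt_irrefl _), Ordinal.sub_self,
        ev_single ho, ev_single ho]
      exact h
  have h2 : ∀ m m' : M, ∀ f g, f < g → X m f < X m' g := by
    intro m m' f g hfg
    have h3 : ∀ (m : M) (f : Ln G), ∃ x, len ([] ++ sh (0, 1) (Uw o (s f))) ≤ ρ x ∧
        E G ([] ++ sh (0, 1) (Uw o (s f))) = tr x (ofLex (X m f).1) := by
      intro m f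
      rw [List.nil_append, sh_one]
      obtain ⟨x, hx⟩ := exists_len_eq (Uw o (s f))
      exact ⟨x, hx.ge, E_ini (ini_append _ _) x hx⟩
    obtain ⟨x, hx, hx2⟩ := h3 m f
    obtain ⟨x', hx', hx2'⟩ := h3 m' g
    change Lt (ofLex (X m f).1) (ofLex (X m' g).1)
    refine main_lt ho [] 0 hx hx2 hx' hx2' ?_
    rw [hs, hs]
    exact hfg
  refine ⟨X (0, 1), X (1, 1), X (2, 1), fun f => ⟨h1 _ _ ?_ f, h1 _ _ ?_ f⟩, fun f g h => h2 _ _ f g h⟩
  · unfold act
    simp
  · unfold act
    simp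

/-- The reverse of the line. -/
theorem neg_mem {f : W → ℤ} (hf : f ∈ Nd G) : -f ∈ Nd G := by
  obtain ⟨w, rfl⟩ := hf
  refine ⟨sh (0, -1) w, ?_⟩
  funext x
  unfold E
  rw [ev_sh]
  change act (0, -1) _ = -(ev (blk G) w (ρ x))
  unfold act
  simp

theorem neg_lt {f g : W → ℤ} : toLex (-g) < toLex (-f) ↔ toLex f < toLex g := by
  have h : ∀ f g : W → ℤ, toLex f < toLex g → toLex (-g) < toLex (-f) := by
    intro f g h
    obtain ⟨z, h1, h2⟩ := toLex_lt.1 h
    refine toLex_lt.2 ⟨z, fun y hy => ?_, ?_⟩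
    · rw [Pi.neg_apply, Pi.neg_apply, h1 y hy]
    · rw [Pi.neg_apply, Pi.neg_apply]
      omega
  refine ⟨fun h1 => ?_, h f g⟩
  have := h _ _ h1
  rwa [neg_neg, neg_neg] at this

/-- Reversal. -/
def negL (f : Ln G) : Ln G := ⟨toLex (-ofLex f.1), neg_mem f.2⟩

theorem negL_negL (f : Ln G) : negL (negL f) = f := by
  apply Subtype.ext
  change toLex (- -ofLex f.1) = f.1
  rw [neg_neg]
  rfl

theorem negL_lt {f g : Ln G} : negL g < negL f ↔ f < g := neg_lt

/-- The line is isomorphic to its reverse. -/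
def revIso : Ln G ≃o (Ln G)ᵒᵈ where
  toFun f := OrderDual.toDual (negL f)
  invFun g := negL (OrderDual.ofDual g)
  left_inv f := negL_negL f
  right_inv g := by
    change OrderDual.toDual (negL (negL (OrderDual.ofDual g))) = g
    rw [negL_negL]
    rfl
  map_rel_iff' := by
    intro f g
    change negL g ≤ negL f ↔ f ≤ g
    rw [← not_lt, ← not_lt, negL_lt]

end Pool.Agent.H635.DR
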