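import Pool.Agent.H635.Dia.Guess

/-!
# Words of blocks and the transfinite sequences they denote (integer version)

As in `Dia.Words`, but the sequences have nonzero integers as values, and the shifts of a block are
the sequences `ε (s + n sign s)`, for `n : ℕ` and `ε = 1` or `ε = -1`.
-/

set_option autoImplicit false

namespace Pool.Agent.H635.DR

open Ordinal Set
open Pool.Agent.H635.Dia (W ρ ρ_lt ρ_lt_ρ ρ_le_ρ ρ_inj exists_ρ mk_W countable_Iio countable_Iic
  exists_bound eq_zero_of_add_eq exists_lub Diamond)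

/-- The indices of the shifts. -/
abbrev M : Type := ℕ × ℤˣ

/-- The composition of shifts. -/
def mmul (m m' : M) : M := (m.1 + m'.1, m.2 * m'.2)

/-- The shift of an integer: it moves away from 0 by `m.1`, and is multiplied with `m.2`. -/
def act (m : M) (z : ℤ) : ℤ := (m.2 : ℤ) * (z + m.1 * z.sign)

theorem act_zero (m : M) : act m 0 = 0 := by simp [act]

theorem sign_act (m : M) (z : ℤ) : (act m z).sign = (m.2 : ℤ) * z.sign := by
  obtain ⟨n, ε⟩ := m
  have h1 : (z + (n : ℤ) * z.sign).sign = z.sign := by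
    rcases lt_trichotomy z 0 with h | h | h
    · rw [Int.sign_eq_neg_one_of_neg h]
      apply Int.sign_eq_neg_one_of_neg
      have : (0 : ℤ) ≤ n := Int.natCast_nonneg n
      omega
    · subst h
      simp
    · rw [Int.sign_eq_one_of_pos h]
      apply Int.sign_eq_one_of_pos
      have : (0 : ℤ) ≤ n := Int.natCast_nonneg n
      omega
  rcases Int.units_eq_one_or ε with rfl | rfl
  · simp [act, h1]
  · have h2 : act (n, -1) z = -(z + (n : ℤ) * z.sign) := by
      unfold act
      push_cast
      ring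
    rw [h2, Int.sign_neg, h1]
    simp

theorem act_eq_zero {m : M} {z : ℤ} : act m z = 0 ↔ z = 0 := by
  constructor
  · intro h
    have h1 := sign_act m z
    rw [h, Int.sign_zero] at h1
    have h2 : z.sign = 0 := by
      rcases Int.units_eq_one_or m.2 with h3 | h3
      · rw [h3] at h1
        simpa using h1.symm
      · rw [h3] at h1
        simpa using h1.symm
    exact Int.sign_eq_zero_iff_zero.1 h2
  · rintro rfl
    exact act_zero m

theorem act_mmul (m m' : M) (z : ℤ) : act (mmul m m') z = act m (act m' z) := by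
  have h := sign_act m' z
  unfold act at h ⊢
  rw [h]
  simp only [mmul]
  push_cast
  ring

theorem act_one (z : ℤ) : act (0, 1) z = z := by simp [act]

/-- Transfinite sequences of nonzero integers: functions on the ordinals; such a function is thought
of as a sequence of length `α` if it is nonzero exactly below `α`. -/
abbrev Seq : Type 1 := Ordinal.{0} → ℤ

/-- Words. -/
abbrev Word : Type := List (W × M)

/-- The length of the sequence denoted by a word. -/
noncomputable def len : Word → Ordinal.{0}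
  | [] => 0
  | p :: w => ω ^ ρ p.1 + len w

/-- Concatenation of `s` (of length `α`) and `t`. -/
noncomputable def cat (α : Ordinal.{0}) (s t : Seq) : Seq := fun ξ => if ξ < α then s ξ else t (ξ - α)

/-- Shift the values of a sequence. -/
def sft (n : M) (s : Seq) : Seq := fun ξ => act n (s ξ)

/-- The sequence denoted by a word, if `b x` is the block with index `x`. -/
noncomputable def ev (b : W → Seq) : Word → Seq
  | [] => fun _ => 0
  | p :: w => cat (ω ^ ρ p.1) (sft p.2 (b p.1)) (ev b w)

/-- Shift of a word. -/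
def sh (n : M) (w : Word) : Word := w.map fun p => (p.1, mmul n p.2)

theorem len_append (w w' : Word) : len (w ++ w') = len w + len w' := by
  induction w with
  | nil => simp [len]
  | cons p w ih => simp [len, ih, add_assoc]

theorem len_sh (n : M) (w : Word) : len (sh n w) = len w := by
  induction w with
  | nil => rfl
  | cons p w ih =>
    change ω ^ ρ p.1 + len (sh n w) = ω ^ ρ p.1 + len w
    rw [ih]

theorem sh_append (n : M) (w w' : Word) : sh n (w ++ w') = sh n w ++ sh n w' := List.map_append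

theorem ev_append (b : W → Seq) (w w' : Word) (ξ : Ordinal.{0}) :
    ev b (w ++ w') ξ = if ξ < len w then ev b w ξ else ev b w' (ξ - len w) := by
  induction w generalizing ξ with
  | nil => simp [len, Ordinal.sub_zero]
  | cons p w ih =>
    simp only [List.cons_append, ev, cat, len]
    by_cases h : ξ < ω ^ ρ p.1
    · have h2 : ξ < ω ^ ρ p.1 + len w := h.trans_le le_self_add
      simp [h, h2]
    · simp only [h, if_false]
      rw [ih]
      have h3 : ω ^ ρ p.1 + (ξ - ω ^ ρ p.1) = ξ := Ordinal.add_sub_cancel_of_le (not_lt.1 h)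
      by_cases h4 : ξ - ω ^ ρ p.1 < len w
      · have h5 : ξ < ω ^ ρ p.1 + len w := by
          rw [← h3]
          exact add_lt_add_right h4 _
        simp [h4, h5]
      · have h5 : ¬ ξ < ω ^ ρ p.1 + len w := by
          rw [← h3]
          intro h6
          exact h4 (lt_of_add_lt_add_left h6)
        simp only [h4, h5, if_false]
        rw [Ordinal.sub_sub]

theorem sft_eq_zero {n : M} {s : Seq} {ξ : Ordinal.{0}} : sft n s ξ = 0 ↔ s ξ = 0 := act_eq_zero

theorem ev_sh (b : W → Seq) (n : M) (w : Word) : ev b (sh n w) = sft n (ev b w) := by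
  induction w with
  | nil => funext ξ; simp [sh, ev, sft, act_zero]
  | cons p w ih =>
    funext ξ
    change cat (ω ^ ρ p.1) (sft (mmul n p.2) (b p.1)) (ev b (sh n w)) ξ =
      sft n (cat (ω ^ ρ p.1) (sft p.2 (b p.1)) (ev b w)) ξ
    rw [ih]
    simp only [cat, sft]
    by_cases h : ξ < ω ^ ρ p.1
    · simp only [h, if_true]
      exact act_mmul _ _ _
    · simp only [h, if_false]

/-- The words with indices below `δ`. -/
def Words (δ : W) : Set Word := {w | ∀ p ∈ w, p.1 < δ}

theorem Words_mono {δ δ' : W} (h : δ ≤ δ') : Words δ ⊆ Words δ' :=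
  fun _ hw p hp => (hw p hp).trans_le h

theorem nil_mem (δ : W) : ([] : Word) ∈ Words δ := by
  intro p hp
  simp at hp

theorem cons_mem {δ : W} {p : W × M} {w : Word} : p :: w ∈ Words δ ↔ p.1 < δ ∧ w ∈ Words δ :=
  List.forall_mem_cons

theorem append_mem {δ : W} {w w' : Word} : w ++ w' ∈ Words δ ↔ w ∈ Words δ ∧ w' ∈ Words δ := by
  induction w with
  | nil => simp [nil_mem]
  | cons p w ih => rw [List.cons_append, cons_mem, cons_mem, ih, and_assoc]

theorem sh_mem {δ : W} {w : Word} {n : M} : sh n w ∈ Words δ ↔ w ∈ Words δ := by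
  induction w with
  | nil => simp [sh]
  | cons p w ih =>
    change (p.1, mmul n p.2) :: sh n w ∈ Words δ ↔ _
    rw [cons_mem, cons_mem, ih]

theorem len_lt_opow {δ : W} {w : Word} (h : w ∈ Words δ) : len w < ω ^ ρ δ := by
  induction w with
  | nil => exact Ordinal.opow_pos _ omega0_pos
  | cons p w ih =>
    rw [cons_mem] at h
    have h1 : ω ^ ρ p.1 < ω ^ ρ δ := (Ordinal.opow_lt_opow_iff_right one_lt_omega0).2 (ρ_lt_ρ.2 h.1)
    exact Ordinal.isPrincipal_add_omega0_opow _ h1 (ih h.2)

theorem len_lt (w : Word) : len w < ω₁ := by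
  induction w with
  | nil => exact Ordinal.omega_pos 1
  | cons p w ih =>
    have h1 : ω ^ ρ p.1 < ω₁ := Ordinal.isPrincipal_opow_omega 1 omega0_lt_omega_one (ρ_lt p.1)
    exact Ordinal.isPrincipal_add_omega 1 h1 ih

theorem countable_Words (δ : W) : (Words δ).Countable := by
  have : Countable (Iio δ) := (countable_Iio δ).to_subtype
  have h : Words δ ⊆ range (fun l : List (Iio δ × M) => l.map fun p => ((p.1 : W), p.2)) := by
    intro w hw
    induction w with
    | nil => exact ⟨[], rfl⟩
    | cons p w ih =>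
      rw [cons_mem] at hw
      obtain ⟨l, hl⟩ := ih hw.2
      refine ⟨(⟨p.1, hw.1⟩, p.2) :: l, ?_⟩
      simp only at hl ⊢
      rw [List.map_cons, hl]
  exact (countable_range _).mono h

theorem ev_congr {b b' : W → Seq} {δ : W} (h : ∀ x < δ, b x = b' x) {w : Word}
    (hw : w ∈ Words δ) : ev b w = ev b' w := by
  induction w with
  | nil => rfl
  | cons p w ih =>
    rw [cons_mem] at hw
    change cat _ (sft p.2 (b p.1)) (ev b w) = cat _ (sft p.2 (b' p.1)) (ev b' w)
    rw [h _ hw.1, ih hw.2]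

/-- The properties of a block: it is a sequence of length `ω ^ ρ x`, whose proper initial segments
are denoted by words with indices below `x`. -/
def IsB (b : W → Seq) (x : W) : Prop :=
  (∀ ξ, b x ξ ≠ 0 ↔ ξ < ω ^ ρ x) ∧
    ∀ α < ω ^ ρ x, ∃ w ∈ Words x, len w = α ∧ ∀ ξ < α, ev b w ξ = b x ξ

theorem ev_ne_zero {b : W → Seq} {w : Word} (hb : ∀ p ∈ w, IsB b p.1) (ξ : Ordinal.{0}) :
    ev b w ξ ≠ 0 ↔ ξ < len w := by
  induction w generalizing ξ with
  | nil => simp [ev, len]
  | cons p w ih =>
    have h1 := (hb p List.mem_cons_self).1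
    have h2 := ih fun q hq => hb q (List.mem_cons_of_mem _ hq)
    simp only [ev, len, cat]
    by_cases h : ξ < ω ^ ρ p.1
    · have h3 : ξ < ω ^ ρ p.1 + len w := h.trans_le le_self_add
      simp only [h, if_true, h3, iff_true]
      rw [Ne, sft_eq_zero]
      exact (h1 ξ).2 h
    · simp only [h, if_false]
      rw [h2]
      have h3 : ω ^ ρ p.1 + (ξ - ω ^ ρ p.1) = ξ := Ordinal.add_sub_cancel_of_le (not_lt.1 h)
      constructor
      · intro h4
        rw [← h3]
        exact add_lt_add_right h4 _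
      · intro h4
        rw [← h3] at h4
        exact lt_of_add_lt_add_left h4

theorem exists_trunc {b : W → Seq} {δ : W} (hb : ∀ x < δ, IsB b x) {w : Word} (hw : w ∈ Words δ)
    {α : Ordinal.{0}} (hα : α ≤ len w) :
    ∃ w' ∈ Words δ, len w' = α ∧ ∀ ξ < α, ev b w' ξ = ev b w ξ := by
  induction w generalizing α with
  | nil =>
    refine ⟨[], nil_mem δ, ?_, fun _ _ => rfl⟩
    exact (nonpos_iff_eq_zero.1 hα).symm
  | cons p w ih =>
    rw [cons_mem] at hw
    by_cases h : α < ω ^ ρ p.1
    · obtain ⟨w', h1, h2, h3⟩ := (hb p.1 hw.1).2 α h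
      refine ⟨sh p.2 w', sh_mem.2 (Words_mono hw.1.le h1), by rw [len_sh, h2], fun ξ hξ => ?_⟩
      rw [ev_sh]
      change _ = cat (ω ^ ρ p.1) (sft p.2 (b p.1)) (ev b w) ξ
      simp only [cat, hξ.trans h, if_true, sft, h3 ξ hξ]
    · rw [not_lt] at h
      have h0 : ω ^ ρ p.1 + (α - ω ^ ρ p.1) = α := Ordinal.add_sub_cancel_of_le h
      have h1 : α - ω ^ ρ p.1 ≤ len w := by
        rw [Ordinal.sub_le]
        exact hα
      obtain ⟨w', h2, h3, h4⟩ := ih hw.2 h1
      refine ⟨p :: w', cons_mem.2 ⟨hw.1, h2⟩, ?_, fun ξ hξ => ?_⟩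
      · change ω ^ ρ p.1 + len w' = α
        rw [h3, h0]
      · change cat (ω ^ ρ p.1) (sft p.2 (b p.1)) (ev b w') ξ =
          cat (ω ^ ρ p.1) (sft p.2 (b p.1)) (ev b w) ξ
        simp only [cat]
        by_cases h5 : ξ < ω ^ ρ p.1
        · simp only [h5, if_true]
        · simp only [h5, if_false]
          apply h4
          have h6 : ω ^ ρ p.1 + (ξ - ω ^ ρ p.1) = ξ := Ordinal.add_sub_cancel_of_le (not_lt.1 h5)
          rw [← h6, ← h0] at hξ
          exact lt_of_add_lt_add_left hξ

theorem exists_first {δ : W} {w : Word} (hw : w ∉ Words δ) :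
    ∃ w₁ ∈ Words δ, ∃ q : W × M, ∃ w₂, w = w₁ ++ q :: w₂ ∧ δ ≤ q.1 := by
  induction w with
  | nil => exact absurd (nil_mem δ) hw
  | cons p w ih =>
    by_cases h : p.1 < δ
    · have h1 : w ∉ Words δ := fun h2 => hw (cons_mem.2 ⟨h, h2⟩)
      obtain ⟨w₁, h2, q, w₂, h3, h4⟩ := ih h1
      exact ⟨p :: w₁, cons_mem.2 ⟨h, h2⟩, q, w₂, by rw [h3]; rfl, h4⟩
    · exact ⟨[], nil_mem δ, p, w, rfl, not_lt.1 h⟩

/-- The words of length `ω ^ ρ δ`. -/
theorem len_eq_opow {δ : W} {w : Word} (h : len w = ω ^ ρ δ) :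
    ∃ t ∈ Words δ, ∃ n, w = t ++ [(δ, n)] := by
  have hw : w ∉ Words δ := fun h1 => (len_lt_opow h1).ne h
  obtain ⟨t, ht, q, w₂, rfl, hq⟩ := exists_first hw
  rw [len_append] at h
  change len t + (ω ^ ρ q.1 + len w₂) = _ at h
  have h1 : ω ^ ρ δ ≤ ω ^ ρ q.1 := Ordinal.opow_le_opow_right omega0_pos (ρ_le_ρ.2 hq)
  have h2 : len t + ω ^ ρ q.1 = ω ^ ρ q.1 :=
    (Ordinal.isPrincipal_add_iff_add_left_eq_self.1 (Ordinal.isPrincipal_add_omega0_opow _)) _
      ((len_lt_opow ht).trans_le h1)
  rw [← add_assoc, h2] at h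
  have h3 : ω ^ ρ q.1 ≤ ω ^ ρ δ := by
    rw [← h]
    exact le_self_add
  have h4 : ω ^ ρ q.1 = ω ^ ρ δ := le_antisymm h3 h1
  have h5 : q.1 = δ := by
    apply ρ_inj
    apply le_antisymm
    · exact (Ordinal.opow_le_opow_iff_right one_lt_omega0).1 h3
    · exact ρ_le_ρ.2 hq
  rw [h4] at h
  have h6 : len w₂ = 0 := eq_zero_of_add_eq h
  have h7 : w₂ = [] := by
    cases w₂ with
    | nil => rfl
    | cons r w₃ =>
      exfalso
      change ω ^ ρ r.1 + len w₃ = 0 at h6
      have : 0 < ω ^ ρ r.1 := Ordinal.opow_pos _ omega0_pos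
      have h8 : ω ^ ρ r.1 ≤ 0 := by
        rw [← h6]
        exact le_self_add
      exact absurd this (not_lt.2 h8)
  refine ⟨t, ht, q.2, ?_⟩
  rw [h7]
  have : q = (δ, q.2) := by rw [← h5]
  rw [← this]

end Pool.Agent.H635.DR
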